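import Pool.Agent.Lib.MP_16f06b_pr.Lower

namespace Pool.Agent.Results.MP_16f06b_pr.ThetaOneOverD

open Pool.Agent.Lib.MP_16f06b_pr

/-- The connectivity threshold constant of the k-nearest neighbour graph has order `1 / d`. -/
theorem result :
    ∃ a b : ℝ, 0 < a ∧ a ≤ b ∧ ∃ d₀ : ℕ, ∀ d : ℕ, d₀ ≤ d →
      (∀ c : ℝ, 0 < c → c < a / d → DisconnectedWhp d c) ∧
      (∀ c : ℝ, b / d < c → ConnectedWhp d c) := by
  obtain ⟨d₁, hd₁⟩ := exists_big
  refine ⟨lowC, 120, lowC_pos, lowC_le, max d₁ 100, fun d hd => ⟨?_, ?_⟩⟩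
  · exact disconnected_whp (by omega) (hd₁ d (by omega))
  · exact connected_whp (by omega)

end Pool.Agent.Results.MP_16f06b_pr.ThetaOneOverD
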